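import Pool.Agent.H247.CB.Stm
import Pool.Graph.R_seed8.Y832.CO.LB

/-! Project CB: bounded approximate orbits of a matrix with one neutral eigenvalue (CN). -/

set_option autoImplicit false

open Filter Set Metric Topology

namespace Pool.Agent.H457.CB.CN

open Pool.Agent.H718R2.G Pool.Agent.Y504.CO Pool.Agent.H247.CB

theorem lb {n : ℕ} (A : V n →L[ℝ] V n) (hA : NoBdd (fun _ => A)) :
    ∃ c : ℝ, 0 < c ∧ ∀ v : ℤ → V n, (∃ C : ℝ, ∀ i, ‖v i‖ ≤ C) → ∀ d : ℝ,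
      (∀ i, ‖v (i + 1) - A (v i)‖ ≤ d) → ∀ i, c * ‖v i‖ ≤ d := by
  obtain ⟨c, hc, N0, h⟩ := Pool.Agent.Y832.CO.LB.main (V n) (fun _ => A) A tendsto_const_nhds
    tendsto_const_nhds hA hA
  refine ⟨c, hc, fun v hv d hd => ?_⟩
  exact h N0 le_rfl ∅ (fun _ => A) (fun _ _ => rfl) (fun _ s hs => absurd hs (notMem_empty s)) v hv
    d hd

theorem part1 {n : ℕ} (A : V n →L[ℝ] V n) (hA : NoBdd (fun _ => A)) :
    ∃ η : ℝ, 0 < η ∧ ∀ δ : ℤ → V n, (∃ C : ℝ, ∀ i, ‖δ i‖ ≤ C) →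
      (∀ i, ‖δ (i + 1) - A (δ i)‖ ≤ η * ‖δ i‖) → ∀ i, δ i = 0 := by
  obtain ⟨c, hc, h⟩ := lb A hA
  refine ⟨c / 2, by positivity, ?_⟩
  intro δ hδ hA2 i
  obtain ⟨C, hC⟩ := hδ
  have hbdd : BddAbove (range fun i => ‖δ i‖) := ⟨C, by rintro _ ⟨i, rfl⟩; exact hC i⟩
  obtain ⟨X, hX⟩ : ∃ X : ℝ, X = ⨆ i, ‖δ i‖ := ⟨_, rfl⟩
  have hle : ∀ i, ‖δ i‖ ≤ X := fun i => by
    rw [hX]
    exact le_ciSup hbdd i
  have h1 := h δ ⟨C, hC⟩ (c / 2 * X) (fun i => (hA2 i).trans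
    (mul_le_mul_of_nonneg_left (hle i) (by positivity)))
  have h2 : X ≤ X / 2 := by
    conv_lhs => rw [hX]
    refine ciSup_le fun i => ?_
    have h3 := h1 i
    have h4 : c * ‖δ i‖ ≤ c * (X / 2) := by
      rw [show c * (X / 2) = c / 2 * X by ring]
      exact h3
    exact le_of_mul_le_mul_left h4 hc
  have h3 : ‖δ i‖ ≤ 0 := by
    have := hle i
    linarith
  exact norm_le_zero_iff.1 h3

/-- the modified map, hyperbolic on the whole space -/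
noncomputable def A2 {n : ℕ} (A : V n →L[ℝ] V n) (lam : ℝ) (e : V n) (ℓ : V n →L[ℝ] ℝ) :
    V n →L[ℝ] V n := A + (2 - lam) • ℓ.smulRight e

theorem A2_apply {n : ℕ} (A : V n →L[ℝ] V n) (lam : ℝ) (e : V n) (ℓ : V n →L[ℝ] ℝ) (v : V n) :
    A2 A lam e ℓ v = A v + (2 - lam) • (ℓ v • e) := rfl

theorem A2_nobdd {n : ℕ} {A : V n →L[ℝ] V n} {lam : ℝ} {e : V n} {ℓ : V n →L[ℝ] ℝ}
    (h : Cen A lam e ℓ) : NoBdd (fun _ => A2 A lam e ℓ) := by
  intro v hv hv2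
  obtain ⟨C, hC⟩ := hv
  have hl : ∀ i, ℓ (v (i + 1)) = 2 * ℓ (v i) := by
    intro i
    rw [hv2 i, A2_apply, map_add, map_smul, map_smul, h.dual, h.nrm]
    simp only [smul_eq_mul]
    ring
  have hk : ∀ (k : ℕ) (i : ℤ), ℓ (v (i + k)) = 2 ^ k * ℓ (v i) := by
    intro k i
    induction k with
    | zero => simp
    | succ k ih =>
      have h1 : i + ((k + 1 : ℕ) : ℤ) = (i + k) + 1 := by push_cast; ring
      rw [h1, hl, ih]
      ring
  have h0 : ∀ i, ℓ (v i) = 0 := by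
    intro i
    by_contra hne
    have hpos : 0 < |ℓ (v i)| := abs_pos.2 hne
    obtain ⟨k, hk2⟩ := pow_unbounded_of_one_lt (‖ℓ‖ * C / |ℓ (v i)|) (one_lt_two (α := ℝ))
    rw [div_lt_iff₀ hpos] at hk2
    have h1 : |ℓ (v (i + k))| ≤ ‖ℓ‖ * C := by
      have h2 := ℓ.le_opNorm (v (i + k))
      rw [Real.norm_eq_abs] at h2
      exact h2.trans (mul_le_mul_of_nonneg_left (hC _) (norm_nonneg _))
    rw [hk, abs_mul, abs_of_pos (by positivity : (0 : ℝ) < 2 ^ k)] at h1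
    linarith
  refine h.hyp v ⟨C, hC⟩ (fun i => ?_) h0
  rw [hv2 i, A2_apply, h0 i, zero_smul, smul_zero, add_zero]

/-! ### the weights -/

theorem w_up {s : ℝ} {i0 i : ℤ} (hi : i0 ≤ i) :
    s ^ (i + 1 - i0).natAbs = s * s ^ (i - i0).natAbs := by
  have h1 : (i + 1 - i0).natAbs = (i - i0).natAbs + 1 := by omega
  rw [h1, pow_succ]
  ring

theorem w_dn {s : ℝ} {i0 i : ℤ} (hi : i < i0) :
    s ^ (i - i0).natAbs = s * s ^ (i + 1 - i0).natAbs := by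
  have h1 : (i - i0).natAbs = (i + 1 - i0).natAbs + 1 := by omega
  rw [h1, pow_succ]
  ring

theorem w_diff {s t : ℝ} (ht : 0 < t) (hs : s * (1 + t) = 1) (i0 i : ℤ) :
    s ^ (i + 1 - i0).natAbs ≤ (1 + t) * s ^ (i - i0).natAbs ∧
    |s ^ (i + 1 - i0).natAbs - s ^ (i - i0).natAbs| ≤ t * s ^ (i - i0).natAbs := by
  have hs0 : 0 < s := by
    by_contra hcon
    push Not at hcon
    nlinarith
  have hs1 : s ≤ 1 := by nlinarith
  rcases le_or_gt i0 i with hi | hi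
  · rw [w_up hi]
    have hw : 0 < s ^ (i - i0).natAbs := pow_pos hs0 _
    constructor
    · exact mul_le_mul_of_nonneg_right (by linarith) hw.le
    · have h1 : s * s ^ (i - i0).natAbs - s ^ (i - i0).natAbs =
          -((1 - s) * s ^ (i - i0).natAbs) := by ring
      rw [h1, abs_neg, abs_of_nonneg (mul_nonneg (by linarith) hw.le)]
      refine mul_le_mul_of_nonneg_right ?_ hw.le
      nlinarith
  · rw [w_dn hi]
    have hw : 0 < s ^ (i + 1 - i0).natAbs := pow_pos hs0 _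
    have h1 : (1 + t) * (s * s ^ (i + 1 - i0).natAbs) = s ^ (i + 1 - i0).natAbs := by
      rw [← mul_assoc, mul_comm (1 + t) s, hs, one_mul]
    constructor
    · exact h1.ge
    · have h2 : s ^ (i + 1 - i0).natAbs - s * s ^ (i + 1 - i0).natAbs =
          t * (s * s ^ (i + 1 - i0).natAbs) := by linarith
      rw [h2, abs_of_nonneg (by positivity)]

/-- recursion along a half line -/
theorem rec_bd {s y0 q Y : ℝ} (hs0 : 0 ≤ s) (hY : Y = y0 + q) {g : ℝ} (hg : g ≤ (1 - s) * q)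
    (hy0 : 0 ≤ y0) (hs1 : s ≤ 1) (hq : 0 ≤ q) (y : ℕ → ℝ) (h0 : y 0 ≤ y0)
    (h : ∀ k, y (k + 1) ≤ s * y k + g) : ∀ k, y k ≤ Y := by
  intro k
  induction k with
  | zero => rw [hY]; linarith
  | succ k ih =>
    refine (h k).trans ?_
    have h1 : s * y k ≤ s * Y := mul_le_mul_of_nonneg_left ih hs0
    have h2 : (1 - s) * q ≤ (1 - s) * Y := by
      refine mul_le_mul_of_nonneg_left ?_ (by linarith)
      rw [hY]
      linarith
    linarith

theorem part2 {n : ℕ} (A : V n →L[ℝ] V n) (lam : ℝ) (e : V n) (ℓ : V n →L[ℝ] ℝ)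
    (h : Cen A lam e ℓ) : ∃ η : ℝ, 0 < η ∧
      ∀ δ : ℤ → V n, (∃ C : ℝ, ∀ i, ‖δ i‖ ≤ C) →
      (∀ i, ‖δ (i + 1) - A (δ i)‖ ≤ η * ‖δ i‖) → ∀ i, (ℓ (δ i) = 0 → δ i = 0) ∧
        (ℓ (δ i) ≠ 0 → 0 < lam * (ℓ (δ i) * ℓ (δ (i + 1)))) := by
  obtain ⟨c, hc, hlb⟩ := lb (A2 A lam e ℓ) (A2_nobdd h)
  obtain ⟨a, ha⟩ : ∃ a : ℝ, a = ‖A‖ := ⟨_, rfl⟩
  obtain ⟨Le, hLe⟩ : ∃ Le : ℝ, Le = ‖e‖ := ⟨_, rfl⟩
  obtain ⟨Ll, hLl⟩ : ∃ Ll : ℝ, Ll = ‖ℓ‖ := ⟨_, rfl⟩
  have ha0 : 0 ≤ a := by rw [ha]; exact norm_nonneg _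
  have hLe0 : 0 ≤ Le := by rw [hLe]; exact norm_nonneg _
  have hLl0 : 0 ≤ Ll := by rw [hLl]; exact norm_nonneg _
  obtain ⟨P, hP⟩ : ∃ P : ℝ, P = 1 + Ll * Le := ⟨_, rfl⟩
  have hP1 : 1 ≤ P := by
    rw [hP]
    have := mul_nonneg hLl0 hLe0
    linarith
  obtain ⟨t, ht⟩ : ∃ t : ℝ, t = c / (4 * (a + 1)) := ⟨_, rfl⟩
  have ht0 : 0 < t := by rw [ht]; positivity
  have hta : t * a ≤ c / 4 := by
    rw [ht, div_mul_eq_mul_div, div_le_div_iff₀ (by positivity) (by norm_num)]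
    nlinarith
  obtain ⟨s, hs⟩ : ∃ s : ℝ, s = 1 / (1 + t) := ⟨_, rfl⟩
  have hst : s * (1 + t) = 1 := by
    rw [hs]
    field_simp
  have hs0 : 0 < s := by rw [hs]; positivity
  have hs1 : s < 1 := by nlinarith
  have hs2 : 0 < 1 - s := by linarith
  obtain ⟨Q, hQ⟩ : ∃ Q : ℝ, Q = 4 / (3 * c) * ((1 + t) * P) + Le * Ll / (1 - s) + Ll * Le + 1 :=
    ⟨_, rfl⟩
  have hQ1 : 0 ≤ 4 / (3 * c) * ((1 + t) * P) := by positivity
  have hQ2 : 0 ≤ Le * Ll / (1 - s) := by positivity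
  have hQ3 : 0 ≤ Ll * Le := by positivity
  have hQ0 : 0 < Q := by rw [hQ]; linarith
  obtain ⟨η, hη⟩ : ∃ η : ℝ, η = 1 / (4 * Q) := ⟨_, rfl⟩
  have hη0 : 0 < η := by rw [hη]; positivity
  have hηQ : η * Q = 1 / 4 := by
    rw [hη]
    field_simp
  refine ⟨η, hη0, ?_⟩
  intro δ hδ hδA i0
  obtain ⟨C, hC⟩ := hδ
  have hC0 : 0 ≤ C := (norm_nonneg _).trans (hC 0)
  have hlam : |lam| = 1 := by
    rcases h.one with h1 | h1
    · rw [h1]; simp
    · rw [h1]; simp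
  have hlam2 : lam * lam = 1 := by
    rcases h.one with h1 | h1
    · rw [h1]; norm_num
    · rw [h1]; norm_num
  -- the linear form along the orbit
  have hl : ∀ i, |ℓ (δ (i + 1)) - lam * ℓ (δ i)| ≤ Ll * (η * ‖δ i‖) := by
    intro i
    have h1 : ℓ (δ (i + 1)) - lam * ℓ (δ i) = ℓ (δ (i + 1) - A (δ i)) := by
      rw [map_sub, h.dual]
    rw [h1]
    have h2 := ℓ.le_opNorm (δ (i + 1) - A (δ i))
    rw [Real.norm_eq_abs, ← hLl] at h2
    exact h2.trans (mul_le_mul_of_nonneg_left (hδA i) hLl0)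
  have hlb2 : ∀ i, |ℓ (δ i)| ≤ Ll * ‖δ i‖ := by
    intro i
    have h2 := ℓ.le_opNorm (δ i)
    rw [Real.norm_eq_abs, ← hLl] at h2
    exact h2
  have hl1 : ∀ i, |ℓ (δ (i + 1))| ≤ |ℓ (δ i)| + Ll * (η * ‖δ i‖) := by
    intro i
    have h1 := abs_sub_abs_le_abs_sub (ℓ (δ (i + 1))) (lam * ℓ (δ i))
    rw [abs_mul, hlam, one_mul] at h1
    have := hl i
    linarith
  have hl2 : ∀ i, |ℓ (δ i)| ≤ |ℓ (δ (i + 1))| + Ll * (η * ‖δ i‖) := by
    intro i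
    have h1 := abs_sub_abs_le_abs_sub (lam * ℓ (δ i)) (ℓ (δ (i + 1)))
    rw [abs_mul, hlam, one_mul, abs_sub_comm] at h1
    have := hl i
    linarith
  -- the weights
  obtain ⟨w, hw⟩ : ∃ w : ℤ → ℝ, ∀ i, w i = s ^ (i - i0).natAbs := ⟨_, fun _ => rfl⟩
  have hw0 : ∀ i, 0 < w i := fun i => by rw [hw]; exact pow_pos hs0 _
  have hw1 : ∀ i, w i ≤ 1 := fun i => by rw [hw]; exact pow_le_one₀ hs0.le hs1.le
  have hwi : w i0 = 1 := by rw [hw]; simp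
  have hwd : ∀ i, w (i + 1) ≤ (1 + t) * w i ∧ |w (i + 1) - w i| ≤ t * w i := by
    intro i
    rw [hw, hw]
    exact w_diff ht0 hst i0 i
  -- the suprema
  obtain ⟨D, hD⟩ : ∃ D : ℝ, D = ⨆ i, w i * ‖δ i‖ := ⟨_, rfl⟩
  have hDb : BddAbove (range fun i => w i * ‖δ i‖) := ⟨C, by
    rintro _ ⟨i, rfl⟩
    have h1 : w i * ‖δ i‖ ≤ 1 * ‖δ i‖ := mul_le_mul_of_nonneg_right (hw1 i) (norm_nonneg _)
    rw [one_mul] at h1
    exact h1.trans (hC i)⟩
  have hDle : ∀ i, w i * ‖δ i‖ ≤ D := fun i => by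
    rw [hD]
    exact le_ciSup hDb i
  have hD0 : 0 ≤ D := (mul_nonneg (hw0 i0).le (norm_nonneg _)).trans (hDle i0)
  obtain ⟨hh, hhd⟩ : ∃ hh : ℤ → V n, ∀ i, hh i = w i • (δ i - ℓ (δ i) • e) := ⟨_, fun _ => rfl⟩
  have hnorm : ∀ i, ‖δ i - ℓ (δ i) • e‖ ≤ P * ‖δ i‖ := by
    intro i
    refine (norm_sub_le _ _).trans ?_
    rw [norm_smul, Real.norm_eq_abs, ← hLe]
    have h1 := mul_le_mul_of_nonneg_right (hlb2 i) hLe0
    rw [hP]
    linarith
  have hhn : ∀ i, ‖hh i‖ = w i * ‖δ i - ℓ (δ i) • e‖ := by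
    intro i
    rw [hhd, norm_smul, Real.norm_eq_abs, abs_of_pos (hw0 i)]
  have hhb : ∀ i, ‖hh i‖ ≤ P * D := by
    intro i
    rw [hhn]
    have h1 := mul_le_mul_of_nonneg_left (hnorm i) (hw0 i).le
    have h2 := mul_le_mul_of_nonneg_left (hDle i) (show 0 ≤ P by linarith)
    linarith
  obtain ⟨X, hX⟩ : ∃ X : ℝ, X = ⨆ i, ‖hh i‖ := ⟨_, rfl⟩
  have hXb : BddAbove (range fun i => ‖hh i‖) := ⟨P * D, by
    rintro _ ⟨i, rfl⟩
    exact hhb i⟩
  have hXle : ∀ i, ‖hh i‖ ≤ X := fun i => by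
    rw [hX]
    exact le_ciSup hXb i
  have hX0 : 0 ≤ X := (norm_nonneg _).trans (hXle i0)
  -- the approximate orbit
  have hstep : ∀ i, ‖hh (i + 1) - A2 A lam e ℓ (hh i)‖ ≤
      (1 + t) * P * η * D + c / 4 * X := by
    intro i
    obtain ⟨r, hr⟩ : ∃ r : V n, r = δ (i + 1) - A (δ i) := ⟨_, rfl⟩
    have hrn : ‖r‖ ≤ η * ‖δ i‖ := by rw [hr]; exact hδA i
    have hlr : ℓ r = ℓ (δ (i + 1)) - lam * ℓ (δ i) := by rw [hr, map_sub, h.dual]
    have hlh : ℓ (δ i - ℓ (δ i) • e) = 0 := by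
      rw [map_sub, map_smul, h.nrm, smul_eq_mul, mul_one, sub_self]
    have h1 : hh (i + 1) - A2 A lam e ℓ (hh i) =
        w (i + 1) • (r - ℓ r • e) + (w (i + 1) - w i) • A (δ i - ℓ (δ i) • e) := by
      rw [hhd, hhd, A2_apply, map_smul, map_smul, hlh, smul_zero, zero_smul, smul_zero, add_zero,
        map_sub, map_smul, h.eig, hlr, hr]
      module
    rw [h1]
    refine (norm_add_le _ _).trans (add_le_add ?_ ?_)
    · rw [norm_smul, Real.norm_eq_abs, abs_of_pos (hw0 _)]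
      have h2 : ‖r - ℓ r • e‖ ≤ P * (η * ‖δ i‖) := by
        refine (norm_sub_le _ _).trans ?_
        rw [norm_smul, ← hLe]
        have h3 := ℓ.le_opNorm r
        rw [← hLl] at h3
        have h4 := mul_le_mul_of_nonneg_right h3 hLe0
        have h5 : ‖r‖ + ‖ℓ r‖ * Le ≤ P * ‖r‖ := by
          rw [hP]
          linarith
        exact h5.trans (mul_le_mul_of_nonneg_left hrn (by linarith))
      have h3 : w (i + 1) * ‖r - ℓ r • e‖ ≤ ((1 + t) * w i) * (P * (η * ‖δ i‖)) :=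
        mul_le_mul (hwd i).1 h2 (norm_nonneg _) (by
          have := hw0 i
          positivity)
      have h4 : ((1 + t) * w i) * (P * (η * ‖δ i‖)) = (1 + t) * P * η * (w i * ‖δ i‖) := by ring
      rw [h4] at h3
      refine h3.trans (mul_le_mul_of_nonneg_left (hDle i) ?_)
      have : 0 ≤ P := by linarith
      positivity
    · rw [norm_smul, Real.norm_eq_abs]
      have h2 := A.le_opNorm (δ i - ℓ (δ i) • e)
      rw [← ha] at h2
      have h3 : |w (i + 1) - w i| * ‖A (δ i - ℓ (δ i) • e)‖ ≤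
          (t * w i) * (a * ‖δ i - ℓ (δ i) • e‖) :=
        mul_le_mul (hwd i).2 h2 (norm_nonneg _) (by
          have := hw0 i
          positivity)
      have h4 : (t * w i) * (a * ‖δ i - ℓ (δ i) • e‖) = t * a * ‖hh i‖ := by
        rw [hhn]
        ring
      rw [h4] at h3
      refine h3.trans (mul_le_mul hta (hXle i) (norm_nonneg _) (by positivity))
  have hcX := hlb hh ⟨P * D, hhb⟩ _ hstep
  have hXD : X ≤ 4 / (3 * c) * ((1 + t) * P) * η * D := by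
    have h1 : X ≤ ((1 + t) * P * η * D + c / 4 * X) / c := by
      conv_lhs => rw [hX]
      refine ciSup_le fun i => ?_
      rw [le_div_iff₀ hc, mul_comm]
      exact hcX i
    rw [le_div_iff₀ hc] at h1
    have h2 : 3 * c / 4 * X ≤ (1 + t) * P * η * D := by linarith
    have h3 : 4 / (3 * c) * ((1 + t) * P) * η * D = ((1 + t) * P * η * D) / (3 * c / 4) := by
      field_simp
    rw [h3, le_div_iff₀ (by positivity)]
    linarith
  -- the neutral direction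
  obtain ⟨q, hq⟩ : ∃ q : ℝ, q = Ll * η * D / (1 - s) := ⟨_, rfl⟩
  have hq0 : 0 ≤ q := by rw [hq]; positivity
  have hqs : Ll * η * D ≤ (1 - s) * q := by
    rw [hq]
    refine le_of_eq ?_
    field_simp
  have hup : ∀ k : ℕ, w (i0 + k) * |ℓ (δ (i0 + k))| ≤ |ℓ (δ i0)| + q := by
    refine rec_bd hs0.le rfl hqs (abs_nonneg _) hs1.le hq0
      (fun k : ℕ => w (i0 + k) * |ℓ (δ (i0 + k))|) ?_ ?_
    · simp [hwi]
    · intro k
      have h1 : i0 + ((k + 1 : ℕ) : ℤ) = (i0 + k) + 1 := by push_cast; ring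
      have h2 : w (i0 + k + 1) = s * w (i0 + k) := by
        rw [hw, hw]
        exact w_up (by omega)
      rw [h1, h2]
      have h3 := mul_le_mul_of_nonneg_left (hl1 (i0 + k))
        (show 0 ≤ s * w (i0 + k) from mul_nonneg hs0.le (hw0 _).le)
      have h4 := hDle (i0 + k)
      have h5 : s * (Ll * η * (w (i0 + k) * ‖δ (i0 + k)‖)) ≤ 1 * (Ll * η * D) :=
        mul_le_mul hs1.le (mul_le_mul_of_nonneg_left h4 (by positivity)) (by
          have := hw0 (i0 + k)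
          positivity) zero_le_one
      calc s * w (i0 + k) * |ℓ (δ (i0 + k + 1))| ≤ _ := h3
        _ = s * (w (i0 + k) * |ℓ (δ (i0 + k))|) +
            s * (Ll * η * (w (i0 + k) * ‖δ (i0 + k)‖)) := by ring
        _ ≤ _ := by linarith
  have hdn : ∀ k : ℕ, w (i0 - k) * |ℓ (δ (i0 - k))| ≤ |ℓ (δ i0)| + q := by
    refine rec_bd hs0.le rfl hqs (abs_nonneg _) hs1.le hq0
      (fun k : ℕ => w (i0 - k) * |ℓ (δ (i0 - k))|) ?_ ?_
    · simp [hwi]
    · intro k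
      obtain ⟨i, hi⟩ : ∃ i : ℤ, i = i0 - ((k + 1 : ℕ) : ℤ) := ⟨_, rfl⟩
      have h1 : i0 - (k : ℤ) = i + 1 := by rw [hi]; push_cast; ring
      have h2 : w i = s * w (i + 1) := by
        rw [hw, hw]
        refine w_dn ?_
        rw [hi]
        push_cast
        omega
      rw [← hi, h1]
      have h3 := mul_le_mul_of_nonneg_left (hl2 i) (hw0 i).le
      have h4 := mul_le_mul_of_nonneg_left (hDle i) (show 0 ≤ Ll * η by positivity)
      calc w i * |ℓ (δ i)| ≤ _ := h3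
        _ = w i * |ℓ (δ (i + 1))| + Ll * η * (w i * ‖δ i‖) := by ring
        _ = s * (w (i + 1) * |ℓ (δ (i + 1))|) + Ll * η * (w i * ‖δ i‖) := by rw [h2]; ring
        _ ≤ _ := by linarith
  have hall : ∀ i, w i * |ℓ (δ i)| ≤ |ℓ (δ i0)| + q := by
    intro i
    rcases le_total i0 i with hi | hi
    · obtain ⟨k, hk⟩ := Int.eq_ofNat_of_zero_le (show 0 ≤ i - i0 by omega)
      have h1 : i = i0 + k := by omega
      rw [h1]
      exact hup k
    · obtain ⟨k, hk⟩ := Int.eq_ofNat_of_zero_le (show 0 ≤ i0 - i by omega)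
      have h1 : i = i0 - k := by omega
      rw [h1]
      exact hdn k
  -- conclusion
  have hDX : D ≤ X + Le * (|ℓ (δ i0)| + q) := by
    conv_lhs => rw [hD]
    refine ciSup_le fun i => ?_
    have h1 : ‖δ i‖ ≤ ‖δ i - ℓ (δ i) • e‖ + |ℓ (δ i)| * Le := by
      have h2 := norm_add_le (δ i - ℓ (δ i) • e) (ℓ (δ i) • e)
      rw [sub_add_cancel, norm_smul, Real.norm_eq_abs, ← hLe] at h2
      exact h2
    have h2 := mul_le_mul_of_nonneg_left h1 (hw0 i).le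
    have h3 := hXle i
    rw [hhn] at h3
    have h4 := mul_le_mul_of_nonneg_left (hall i) hLe0
    linarith
  have hDD : D ≤ 2 * Le * |ℓ (δ i0)| := by
    have h1 : Le * q = Le * Ll / (1 - s) * η * D := by
      rw [hq]
      ring
    have h2 : (4 / (3 * c) * ((1 + t) * P) + Le * Ll / (1 - s)) * η * D ≤ 1 / 4 * D := by
      refine mul_le_mul_of_nonneg_right ?_ hD0
      rw [← hηQ, mul_comm η Q]
      refine mul_le_mul_of_nonneg_right ?_ hη0.le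
      rw [hQ]
      linarith
    have h3 : 0 ≤ Le * |ℓ (δ i0)| := mul_nonneg hLe0 (abs_nonneg _)
    linarith
  have hδi : ‖δ i0‖ ≤ 2 * Le * |ℓ (δ i0)| := by
    have h1 := hDle i0
    rw [hwi, one_mul] at h1
    exact h1.trans hDD
  constructor
  · intro h0
    rw [h0, abs_zero, mul_zero] at hδi
    exact norm_le_zero_iff.1 hδi
  · intro hne
    have hpos : 0 < |ℓ (δ i0)| := abs_pos.2 hne
    have h1 := hl i0
    have h2 : Ll * (η * ‖δ i0‖) ≤ 1 / 2 * |ℓ (δ i0)| := by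
      have h3 : Ll * (η * ‖δ i0‖) ≤ Ll * (η * (2 * Le * |ℓ (δ i0)|)) :=
        mul_le_mul_of_nonneg_left (mul_le_mul_of_nonneg_left hδi hη0.le) hLl0
      have h4 : Ll * (η * (2 * Le * |ℓ (δ i0)|)) = 2 * (η * (Ll * Le)) * |ℓ (δ i0)| := by ring
      have h5 : η * (Ll * Le) ≤ 1 / 4 := by
        rw [← hηQ]
        refine mul_le_mul_of_nonneg_left ?_ hη0.le
        rw [hQ]
        linarith
      rw [h4] at h3
      refine h3.trans (mul_le_mul_of_nonneg_right ?_ hpos.le)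
      linarith
    obtain ⟨ρ, hρ⟩ : ∃ ρ : ℝ, ρ = ℓ (δ (i0 + 1)) - lam * ℓ (δ i0) := ⟨_, rfl⟩
    rw [← hρ] at h1
    have h6 : ℓ (δ (i0 + 1)) = lam * ℓ (δ i0) + ρ := by rw [hρ]; ring
    have h7 : lam * (ℓ (δ i0) * ℓ (δ (i0 + 1))) =
        ℓ (δ i0) * ℓ (δ i0) + lam * (ℓ (δ i0) * ρ) := by
      rw [h6]
      linear_combination (ℓ (δ i0) * ℓ (δ i0)) * hlam2
    have h8 : |lam * (ℓ (δ i0) * ρ)| ≤ 1 / 2 * (|ℓ (δ i0)| * |ℓ (δ i0)|) := by
      rw [abs_mul, hlam, one_mul, abs_mul]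
      have h9 := mul_le_mul_of_nonneg_left (h1.trans h2) hpos.le
      linarith
    have h9 := (abs_le.1 h8).1
    have h10 : |ℓ (δ i0)| * |ℓ (δ i0)| = ℓ (δ i0) * ℓ (δ i0) := abs_mul_abs_self _
    have h11 : 0 < |ℓ (δ i0)| * |ℓ (δ i0)| := mul_pos hpos hpos
    rw [h7]
    linarith

theorem main : S_CN := fun _ A => ⟨part1 A, part2 A⟩

end Pool.Agent.H457.CB.CN
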